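import Mathlib
import Pool.Agent.Lib.MP_d999cd_lc.Main

/-!
# MP_d999cd_lc, Q1: negative answer

There is a recursively enumerable sequential theory `U` with finitely many symbols such that no
theory `T` in the language of `S^1_2` that proves `S^1_2` is mutually interpretable with `U`.
The definitions are in `Pool/Agent/Lib/MP_d999cd_lc/Stmt.lean`.
-/

open Pool.Agent.Lib.MP_d999cd_lc in
/-- The negative answer to Q1. -/
theorem Pool.Agent.Results.MP_d999cd_lc.NegativeAnswer.result :
    ∃ (L : FirstOrder.Language.{0, 0}) (U : L.Theory),
      (Finite (Σ n, L.Functions n) ∧ Finite (Σ n, L.Relations n)) ∧ RecEnum U ∧ Sequential U ∧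
        ∀ T : buss.Theory, ExtendsS12 T → ¬ MutuallyInterpretable T U :=
  negative
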